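import Pool.Agent.T9h36.N1.Spec
import Pool.Agent.T9h48.NK.TrCore
import Pool.Agent.T9h22.NK.MC

/-!
# Project NK, slope 1, piece N6: a vertex with a transitive figure has no neighbour of type C
-/

set_option autoImplicit false

open Set
open scoped RealInnerProductSpace

namespace Pool.Agent.T9h56.N1

open Pool.Agent.T9h98.DC Pool.Agent.T9h98.NK Pool.Agent.T9h44.NK Pool.Agent.T9h46.NK
open Pool.Agent.T9h36.N1

theorem adj_img {d : ℕ} {P : Set (E d)} (h : E d ≃ₗᵢ[ℝ] E d) (hP : h '' P = P) {v y : E d}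
    (ha : Adj P v y) : Adj P (h v) (h y) := by
  refine ⟨fun h3 => ha.1 (h.injective h3), ?_⟩
  have h4 := Pool.Agent.T9h48.NK.face_image h hP ha.2
  have h5 : h '' segment ℝ v y = segment ℝ (h v) (h y) :=
    image_segment ℝ (h.toLinearEquiv.toLinearMap.toAffineMap) v y
  rwa [h5] at h4

theorem cor_img {d : ℕ} {P : Set (E d)} (h : E d ≃ₗᵢ[ℝ] E d) (hP : h '' P = P) {v w y : E d}
    (hc : Cor P v w y) : Cor P (h v) (h w) (h y) := by
  obtain ⟨h1, h2, h3, T, h4, h5, h6, h7, h8⟩ := hc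
  refine ⟨adj_img h hP h1, adj_img h hP h2, fun h9 => h3 (h.injective h9), h '' T,
    Pool.Agent.T9h48.NK.face_image h hP h4, ?_, mem_image_of_mem _ h6, mem_image_of_mem _ h7,
    mem_image_of_mem _ h8⟩
  rw [Pool.Agent.T9h48.NK.dm_image, h5]

theorem adj_symm {d : ℕ} {P : Set (E d)} {v w : E d} (h : Adj P v w) : Adj P w v :=
  ⟨h.1.symm, by rw [segment_symm]; exact h.2⟩

/-- the corner at `w`, if the other end of one of its edges is of type C -/
theorem angle (hE : S_EDGE) (hPl : S_PLANE) {D : ℕ} {P : Set (E (D + 1))} (hP : IsPolytope P)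
    {w v z : E (D + 1)} {g l : ℝ} (hg0 : 0 < g) (hg1 : g < 1) (hc : Cor P w v z)
    (hv : ‖v - w‖ = l) (hz : ‖z - w‖ = l)
    (hC : ∀ y, Cor P v w y → ⟪w - v, y - v⟫ = g * (‖w - v‖ * ‖y - v‖)) :
    ⟪v - w, z - w⟫ ≤ (1 - 2 * g ^ 2) * l ^ 2 := by
  obtain ⟨z2, hz2, ⟨α, β, hα, hβ, he⟩, -⟩ := hE D P hP w v z hc
  obtain ⟨A, hA⟩ : ∃ A : ℝ, A = (α + β - 1) / β := ⟨_, rfl⟩
  have hβ' : β ≠ 0 := hβ.ne'
  have hkey : ∀ a b : E (D + 1), b - a = A • (-a) + (1 / β) • ((α • a + β • b) - a) := by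
    intro a b
    rw [hA]
    match_scalars <;> field_simp <;> ring
  have hexp : z - v = A • (w - v) + (1 / β) • (z2 - v) := by
    have h1 : z2 - v = (z2 - w) - (v - w) := by abel
    have h2 : z - v = (z - w) - (v - w) := by abel
    have h3 : w - v = -(v - w) := by abel
    rw [h1, he, h2, h3]
    exact hkey _ _
  have hzP : z ∈ P := hc.2.1.2.2.subset (right_mem_segment ℝ w z)
  obtain ⟨hA0, -⟩ := (hPl D P hP v w z2 hz2).2 z hzP _ _ hexp
  have hB0 : 0 < 1 / β := by positivity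
  obtain ⟨B, hB⟩ : ∃ B : ℝ, B = 1 / β := ⟨_, rfl⟩
  rw [← hB] at hexp hB0
  have hlw : ‖w - v‖ = l := by rw [norm_sub_rev]; exact hv
  have hl0 : 0 < l := by
    rw [← hv, norm_pos_iff, sub_ne_zero]
    exact hc.1.1.symm
  have i1 : ⟪z2 - v, w - v⟫ = g * (l * ‖z2 - v‖) := by
    rw [real_inner_comm, hC z2 hz2, hlw]
  have i2 : ⟪z - v, w - v⟫ = A * l ^ 2 + B * (g * (l * ‖z2 - v‖)) := by
    rw [hexp, inner_add_left, real_inner_smul_left, real_inner_smul_left, i1,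
      real_inner_self_eq_norm_sq, hlw]
  have i3 : ‖z - v‖ ≤ A * l + B * ‖z2 - v‖ := by
    rw [hexp]
    refine (norm_add_le _ _).trans ?_
    rw [norm_smul, norm_smul, hlw, Real.norm_of_nonneg hA0, Real.norm_of_nonneg hB0.le]
  have i4 : ⟪z - v, w - v⟫ = l ^ 2 - ⟪v - w, z - w⟫ := by
    have h2 : z - v = (z - w) - (v - w) := by abel
    have h3 : w - v = -(v - w) := by abel
    rw [h2, h3, inner_neg_right, inner_sub_left, real_inner_self_eq_norm_sq, hv,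
      real_inner_comm (v - w) (z - w)]
    ring
  have i5 : ‖z - v‖ ^ 2 = 2 * l ^ 2 - 2 * ⟪v - w, z - w⟫ := by
    have h2 : z - v = (z - w) - (v - w) := by abel
    rw [h2, norm_sub_sq_real, hz, hv, real_inner_comm (v - w) (z - w)]
    ring
  have hN : 0 < ‖z - v‖ := by
    rw [norm_pos_iff, sub_ne_zero]
    exact hc.2.2.1.symm
  have hm0 : 0 ≤ ‖z2 - v‖ := norm_nonneg _
  obtain ⟨N, hNd⟩ : ∃ N, N = ‖z - v‖ := ⟨_, rfl⟩
  obtain ⟨m, hmd⟩ : ∃ m, m = ‖z2 - v‖ := ⟨_, rfl⟩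
  obtain ⟨p, hpd⟩ : ∃ p : ℝ, p = ⟪v - w, z - w⟫ := ⟨_, rfl⟩
  rw [← hNd] at i3 i5 hN
  rw [← hmd] at i2 i3 hm0
  rw [i4] at i2
  rw [← hpd] at i2 i5 ⊢
  have k1 : g * l * N ≤ l ^ 2 - p := by
    rw [i2]
    have h1 : g * l * N ≤ g * l * (A * l + B * m) :=
      mul_le_mul_of_nonneg_left i3 (by positivity)
    have h2 : 0 ≤ (1 - g) * (A * l ^ 2) := mul_nonneg (by linarith) (by positivity)
    nlinarith
  have k2 : 2 * g * l * N ≤ N * N := by nlinarith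
  have k3 : 2 * g * l ≤ N := le_of_mul_le_mul_right k2 hN
  have k4 : (2 * g * l) ^ 2 ≤ N ^ 2 := by
    apply pow_le_pow_left₀ (by positivity) k3
  nlinarith

theorem n6 (hF : S_FACES) (hVF : S_VF) (hNB : S_NB) (hCo : S_CONE) (hE : S_EDGE)
    (hPl : S_PLANE) : S_N6 := by
  intro D P H w n v ι g hD hP hH hdat hwv hC hPT
  obtain ⟨hw, hsup, hn, ho, hfix⟩ := hdat
  obtain ⟨D', rfl⟩ : ∃ D', D = D' + 1 := ⟨D - 1, by omega⟩
  obtain ⟨nb1, nb2, nb3, nb4⟩ := hNB (D' + 1) P w n ι hP hw hsup hn ho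
  obtain ⟨hQ, -⟩ := hVF (D' + 1) P w n ι hP hw hsup hn ho
  have hg1 : g < 1 := hC.glt
  have hg0 : 13 / 15 < g := by
    have h1 := hC.ggt
    have h2 : (2 : ℝ) / ((D' + 1 : ℕ) : ℝ) ≤ 2 / 15 := by
      apply div_le_div_of_nonneg_left (by norm_num) (by norm_num)
      exact_mod_cast hD
    linarith
  obtain ⟨xv, hxv, hpv⟩ := nb1 v hwv
  -- all neighbours are equivalent
  have htr : ∀ y, Adj P w y → ∃ h ∈ H, h w = w ∧ h y = v := by
    intro y hy
    obtain ⟨x, hx, hp⟩ := nb1 y hy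
    obtain ⟨k, ⟨h, hh, hhw, hk⟩, hkx⟩ := vtrans hPT x xv hx hxv
    refine ⟨h, hh, hhw, ?_⟩
    have ha : Adj P w (h y) := by
      have := adj_img h (hH h hh) hy
      rwa [hhw] at this
    have hp2 : Pr w n ι (h y) xv := by
      obtain ⟨t, ht, he⟩ := hp
      refine ⟨t, ht, ?_⟩
      calc h y - w = h y - h w := by rw [hhw]
        _ = h (y - w) := by rw [map_sub]
        _ = t • (n + ι xv) := by
          rw [he, map_smul, map_add, hfix h hh hhw, ← hk, hkx]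
    exact (nb3 _ _ _ _ ha hwv hp2 hpv).1 rfl
  obtain ⟨l, hl⟩ : ∃ l, l = ‖v - w‖ := ⟨_, rfl⟩
  have hl0 : 0 < l := by
    rw [hl, norm_pos_iff, sub_ne_zero]
    exact hwv.1.symm
  have hlen : ∀ y, Adj P w y → ‖y - w‖ = l := by
    intro y hy
    obtain ⟨h, hh, hhw, hhy⟩ := htr y hy
    rw [hl, ← hhy]
    conv_rhs => rw [← hhw]
    rw [hhw, ← h.norm_map (y - w), map_sub, hhw]
  have hinn : ∀ y, Adj P w y → ⟪y - w, n⟫ = ⟪v - w, n⟫ := by
    intro y hy
    obtain ⟨h, hh, hhw, hhy⟩ := htr y hy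
    rw [← hhy, ← h.inner_map_map (y - w) n, map_sub, hhw, hfix h hh hhw]
  have hcor : ∀ y z, Cor P w y z → ⟪y - w, z - w⟫ ≤ (1 - 2 * g ^ 2) * l ^ 2 := by
    intro y z hyz
    obtain ⟨h, hh, hhw, hhy⟩ := htr y hyz.1
    refine angle hE hPl hP (by linarith) hg1 hyz (hlen y hyz.1) (hlen z hyz.2.1) ?_
    intro y' hy'
    have h1 := cor_img h (hH h hh) hy'
    rw [hhw, hhy] at h1
    have h2 := hC.cor _ _ h1
    have e1 : w - v = h (w - y) := by rw [map_sub, hhw, hhy]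
    have e2 : h y' - v = h (y' - y) := by rw [map_sub, hhy]
    rw [e1, e2, h.inner_map_map, h.norm_map, h.norm_map] at h2
    exact h2
  -- the figure
  have hn2 : 0 < ‖n‖ ^ 2 := by positivity
  have hic : ∀ x x', ⟪n + ι x, n + ι x'⟫ = ‖n‖ ^ 2 + ⟪x, x'⟫ := by
    intro x x'
    have h1 : ⟪ι x, n⟫ = 0 := by rw [real_inner_comm]; exact ho x
    rw [inner_add_left, inner_add_right, inner_add_right, ho x', h1,
      ι.inner_map_map, real_inner_self_eq_norm_sq]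
    ring
  have hin2 : ∀ x, ⟪n + ι x, n⟫ = ‖n‖ ^ 2 := by
    intro x
    have h1 : ⟪ι x, n⟫ = 0 := by rw [real_inner_comm]; exact ho x
    rw [inner_add_left, h1, real_inner_self_eq_norm_sq]
    ring
  obtain ⟨t0, ht0, het0⟩ := hpv
  have hT : ∀ x, Vx (fig w n ι P) x → ∃ y, Adj P w y ∧ y - w = t0 • (n + ι x) := by
    intro x hx
    obtain ⟨y, hy, t, ht, he⟩ := nb2 x hx
    refine ⟨y, hy, ?_⟩
    have h1 := hinn y hy
    rw [he, het0, real_inner_smul_left, real_inner_smul_left, hin2, hin2] at h1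
    have h2 : t = t0 := mul_right_cancel₀ hn2.ne' h1
    rw [he, h2]
  obtain ⟨R, hR⟩ : ∃ R : ℝ, R = ‖xv‖ ^ 2 := ⟨_, rfl⟩
  have hl2 : l ^ 2 = t0 ^ 2 * (‖n‖ ^ 2 + R) := by
    rw [hl, ← real_inner_self_eq_norm_sq (v - w), het0, real_inner_smul_left,
      real_inner_smul_right, hic, real_inner_self_eq_norm_sq xv, hR]
    ring
  have ht02 : 0 < t0 ^ 2 := by positivity
  have hxx : ∀ x, Vx (fig w n ι P) x → ⟪x, x⟫ = R := by
    intro x hx
    obtain ⟨y, hy, he⟩ := hT x hx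
    have h1 := hlen y hy
    have h2 : ‖y - w‖ ^ 2 = t0 ^ 2 * (‖n‖ ^ 2 + ⟪x, x⟫) := by
      rw [← real_inner_self_eq_norm_sq (y - w), he, real_inner_smul_left,
        real_inner_smul_right, hic]
      ring
    rw [h1, hl2] at h2
    have h3 := mul_left_cancel₀ ht02.ne' h2
    linarith
  have hR0 : 0 ≤ R := by rw [hR]; positivity
  obtain ⟨c, hc⟩ : ∃ c : ℝ, c = 1 - 2 * g ^ 2 := ⟨_, rfl⟩
  have hc2 : c < -1 / 2 := by rw [hc]; nlinarith
  have hadj : ∀ x x', Adj (fig w n ι P) x x' → Vx (fig w n ι P) x → Vx (fig w n ι P) x' →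
      ⟪x, x'⟫ ≤ c * R := by
    intro x x' ha hx hx'
    obtain ⟨y, hy, he⟩ := hT x hx
    obtain ⟨y', hy', he'⟩ := hT x' hx'
    obtain ⟨h1, h2⟩ := (nb4 y y' x x' hy hy' ⟨t0, ht0, he⟩ ⟨t0, ht0, he'⟩).1 ha
    have h3 := hcor y y' ⟨hy, hy', h1, h2⟩
    rw [he, he', real_inner_smul_left, real_inner_smul_right, hic, ← hc, hl2] at h3
    have h4 : t0 ^ 2 * (‖n‖ ^ 2 + ⟪x, x'⟫) ≤ t0 ^ 2 * (c * (‖n‖ ^ 2 + R)) := by linarith
    have h5 := le_of_mul_le_mul_left h4 ht02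
    nlinarith
  have hvxadj : ∀ x x', Adj (fig w n ι P) x x' → Vx (fig w n ι P) x' := by
    intro x x' ha
    obtain ⟨-, -, -, -, -, -, -, -, hA, -⟩ := hF (D' + 1) (fig w n ι P) hQ.1
    exact (hA x x' ha).2.1
  have hall : ∀ x x', Vx (fig w n ι P) x → Vx (fig w n ι P) x' → x ≠ x' →
      ⟪x, x'⟫ ≤ c * R := by
    intro x x' hx hx' hne
    have hx'Q : x' ∈ fig w n ι P := hx'.2.subset rfl
    obtain ⟨S, cc, hS1, hS2⟩ := hCo D' (fig w n ι P) x hQ hx x' hx'Q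
    obtain ⟨q, hq⟩ : ∃ q : ℝ, q = ⟪x, x'⟫ := ⟨_, rfl⟩
    have hpos : 0 < R - q := by
      have h1 : 0 < ‖x - x'‖ ^ 2 := by
        have : 0 < ‖x - x'‖ := norm_pos_iff.mpr (sub_ne_zero.mpr hne)
        positivity
      rw [norm_sub_sq_real, ← real_inner_self_eq_norm_sq x, ← real_inner_self_eq_norm_sq x',
        hxx x hx, hxx x' hx', ← hq] at h1
      linarith
    have hL1 : R - q ≤ (∑ y ∈ S, cc y) * (R - q) := by
      have h1 : ⟪x' - x, x'⟫ = R - q := by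
        rw [inner_sub_left, hxx x' hx', hq]
      rw [hS2, sum_inner] at h1
      rw [Finset.sum_mul]
      conv_lhs => rw [← h1]
      apply Finset.sum_le_sum
      intro y hy
      rw [real_inner_smul_left, inner_sub_left, ← hq]
      apply mul_le_mul_of_nonneg_left _ (hS1 y hy).2
      have h2 : ⟪y, x'⟫ ≤ R := by
        have h3 := real_inner_le_norm y x'
        have hy1 := hxx y (hvxadj x y (hS1 y hy).1)
        have hy2 := hxx x' hx'
        rw [real_inner_self_eq_norm_sq] at hy1 hy2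
        have h4 : ‖y‖ * ‖x'‖ ≤ R := by nlinarith [sq_nonneg (‖y‖ - ‖x'‖)]
        linarith
      linarith
    have hL : 1 ≤ ∑ y ∈ S, cc y := by
      by_contra hcon
      push Not at hcon
      nlinarith
    have hL2 : q - R ≤ (∑ y ∈ S, cc y) * (c * R - R) := by
      have h1 : ⟪x' - x, x⟫ = q - R := by
        rw [inner_sub_left, hxx x hx, real_inner_comm x x', hq]
      rw [hS2, sum_inner] at h1
      rw [Finset.sum_mul]
      conv_lhs => rw [← h1]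
      apply Finset.sum_le_sum
      intro y hy
      rw [real_inner_smul_left, inner_sub_left, hxx x hx]
      apply mul_le_mul_of_nonneg_left _ (hS1 y hy).2
      have h2 := hadj x y (hS1 y hy).1 hx (hvxadj x y (hS1 y hy).1)
      rw [real_inner_comm y x] at *
      linarith
    rw [← hq]
    have h5 : c * R - R ≤ 0 := by nlinarith
    nlinarith
  -- three vertices
  obtain ⟨z1, z2, hne, hz1, hz2, -⟩ :=
    Pool.Agent.T9h22.NK.situ hE (by omega) hP (adj_symm hwv) hC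
  obtain ⟨x1, hx1, hp1⟩ := nb1 z1 hz1.2.1
  obtain ⟨x2, hx2, hp2⟩ := nb1 z2 hz2.2.1
  have hpv' : Pr w n ι v xv := ⟨t0, ht0, het0⟩
  have n1 : xv ≠ x1 := fun h => hz1.2.2.1 ((nb3 v z1 xv x1 hwv hz1.2.1 hpv' hp1).1 h)
  have n2 : xv ≠ x2 := fun h => hz2.2.2.1 ((nb3 v z2 xv x2 hwv hz2.2.1 hpv' hp2).1 h)
  have n3 : x1 ≠ x2 := fun h => hne ((nb3 z1 z2 x1 x2 hz1.2.1 hz2.2.1 hp1 hp2).1 h)
  have a1 := hall xv x1 hxv hx1 n1
  have a2 := hall xv x2 hxv hx2 n2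
  have a3 := hall x1 x2 hx1 hx2 n3
  have hRpos : 0 < R := by
    rcases hR0.lt_or_eq with h | h
    · exact h
    · exfalso
      have h1 := hxx xv hxv
      have h2 := hxx x1 hx1
      rw [← h] at h1 h2
      rw [inner_self_eq_zero] at h1 h2
      exact n1 (h1.trans h2.symm)
  have hsq : 0 ≤ ⟪xv + x1 + x2, xv + x1 + x2⟫ := real_inner_self_nonneg
  have hexp : ⟪xv + x1 + x2, xv + x1 + x2⟫ =
      3 * R + 2 * (⟪xv, x1⟫ + ⟪xv, x2⟫ + ⟪x1, x2⟫) := by
    simp only [inner_add_left, inner_add_right]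
    rw [hxx xv hxv, hxx x1 hx1, hxx x2 hx2, real_inner_comm xv x1, real_inner_comm xv x2,
      real_inner_comm x1 x2]
    ring
  rw [hexp] at hsq
  nlinarith

end Pool.Agent.T9h56.N1
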